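import Pool.Agent.H297R3.Luo.Norm
import Pool.Agent.H297R3.Luo.Weight
import Pool.Agent.Y415.LU.Family

/-!
# The volume on `W(T)` is not bounded by the Gromov norm: linear growth

For the triangulations of the 3-sphere of the starting result `VolumeUnbounded` (the join of two
circles that are divided into `2 M` and `2 N` arcs, which has `4 M N` tetrahedra) the supremum
of the volume on `W(T)` is at least `v₃ / 2` times the number of tetrahedra, while the Gromov norm
is `0`. For every triangulation `T` and every point of `W(T)` the absolute value of the volume is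
at most `v₃` times the number of tetrahedra.
-/

set_option autoImplicit false

namespace Pool.Agent.Results.MP_e8da18_gt.LinearGrowth

open Pool.Agent.H297R3.Luo

/-- (1) For all `M, N ≥ 1` there is a triangulation `T` of the 3-sphere with exactly `4 M N`
tetrahedra and with `v₃ ‖S³‖ = 0` such that for every `ε > 0` there is a point `z` of `W(T)` with
`vol(z) > (v₃ / 2 - ε) · (number of tetrahedra)`; and `v₃ > 0`. (2)
`|vol(z)| ≤ v₃ · (number of tetrahedra)` for all triangulations `T` and all `z ∈ W(T)`. -/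
theorem result :
    (∀ M N : ℕ, 1 ≤ M → 1 ≤ N → ∃ T : Triangulation,
      Nonempty (T.Space ≃ₜ Metric.sphere (0 : EuclideanSpace ℝ (Fin 4)) 1) ∧
      Fintype.card T.Tet = 4 * M * N ∧ T.gromovNorm = 0 ∧
      ∀ ε : ℝ, 0 < ε → ∃ z ∈ T.W, (v3 / 2 - ε) * Fintype.card T.Tet < T.vol z) ∧
    0 < v3 ∧
    ∀ (T : Triangulation), ∀ z ∈ T.W, |T.vol z| ≤ v3 * Fintype.card T.Tet := by
  refine ⟨fun M N hM hN => ?_, Pool.Agent.Y415.LU.v3_pos, Pool.Agent.Y415.LU.vol_le⟩
  obtain ⟨m, rfl⟩ : ∃ m, M = m + 1 := ⟨M - 1, by omega⟩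
  obtain ⟨n, rfl⟩ : ∃ n, N = n + 1 := ⟨N - 1, by omega⟩
  have hcard : Fintype.card (joinTri m n).Tet = 4 * (m + 1) * (n + 1) := by
    have h : Fintype.card (Fin (2 * m + 2) × Fin (2 * n + 2)) = 4 * (m + 1) * (n + 1) := by
      rw [Fintype.card_prod, Fintype.card_fin, Fintype.card_fin]
      ring
    exact h
  refine ⟨joinTri m n, ⟨(homeo m n).trans sphereHomeo⟩, hcard, gromovNorm_zero m n,
    fun ε hε => ?_⟩
  obtain ⟨z, hz, hv⟩ := Pool.Agent.Y415.LU.exists_vol ε hε m n
  refine ⟨z, hz, ?_⟩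
  rw [hcard]
  push_cast
  exact hv

end Pool.Agent.Results.MP_e8da18_gt.LinearGrowth
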